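import Pool.Agent.Helper16.KS.Defs

/-!
# Project KS (MP_768c9c_nt, S17468), construction D5: statements of the modules

Everything is stated for an arbitrary system `S : Sys`.  Sufficiently large constants may depend
on `S`.
-/

set_option autoImplicit false
open scoped Classical
open Filter Topology

namespace Pool.Agent.Helper16.KS

namespace Sys

variable (S : Sys)

/-! ## The events -/

/-- number of owners (active candidates) of the control prime `q` -/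
noncomputable def own (k0 : ℕ) (R : Set ℕ) (q : ℕ) : ℕ :=
  ∑ k ∈ Finset.Ico k0 (top q), ∑ j ∈ S.badc k, ((S.act R k j).filter (fun x => x.1 = q)).card

/-- what we need to know about the set `R` -/
structure Good (k0 : ℕ) (R : Set ℕ) : Prop where
  prime : ∀ r ∈ R, r.Prime ∧ (2 : ℝ) ^ ((k0 : ℝ) / 5) ≤ r
  lower : ∀ k, k0 ≤ k → ∀ j ∈ S.badc k, ((S.Cand k j).card : ℝ) / 2 ≤ S.NN R k j
  win1 : ∀ k, k0 ≤ k → ∀ j ∈ S.badc k, ∀ x h : ℕ, (2 : ℝ) ^ (0.498 * (k : ℝ)) ≤ h →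
    h ≤ 2 ^ ec S.d k →
    ∑ y ∈ (S.act R k j).filter (fun y => x ≤ y.1 * y.2 ∧ y.1 * y.2 < x + h), 1 / S.pr y.2 ≤
      2 * (S.C1 * (h / 2 ^ ec S.d k) * (S.Cand k j).card)
  win2 : ∀ k, k0 ≤ k → ∀ j ∈ S.badc k, ∀ x h : ℕ, (2 : ℝ) ^ (0.38 * (k : ℝ)) ≤ h →
    h ≤ 2 ^ ec S.d k →
    ∑ y ∈ (S.act R k j).filter (fun y => x ≤ y.1 * y.2 ∧ y.1 * y.2 < x + h), 1 / S.pr y.2 ≤
      2 * (S.C1 * k * (h / 2 ^ ec S.d k) * (S.Cand k j).card)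
  mult : ∀ q : ℕ, (S.own k0 R q : ℝ) ≤ (q : ℝ) ^ S.tau
  massR : ∀ T : Finset ℕ, (∀ r ∈ T, r ∈ R) →
    ∑ r ∈ T, S.base r * (r : ℝ) ^ (-S.s) * (1 + Real.log r) ^ 2 ≤
      (2 : ℝ) ^ (-(S.tau / 10) * (k0 : ℝ))
  massC : ∀ k, k0 ≤ k → ∑ j ∈ S.badc k, ∑ x ∈ S.act R k j, S.wd k x.2 * (x.1 : ℝ) ^ (-S.s) ≤
    (2 : ℝ) ^ (-(S.c / 4) * (k : ℝ))
  crude : ∀ k x h : ℕ, (k0 : ℝ) / 2 ≤ k → 2 ^ k ≤ x → x < 2 ^ (k + 1) →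
    (2 : ℝ) ^ ((1/2 - 3 * S.d) * k) ≤ h → h ≤ x →
    ∑ n ∈ Finset.Ico x (x + h), CM (S.Fh k0 R) n ≤ h * (2 : ℝ) ^ ((S.s - 1 + 7 * S.tau) * k)
  rpart : ∀ k x h : ℕ, (k0 : ℝ) / 2 ≤ k → 2 ^ k ≤ x → x < 2 ^ (k + 1) →
    (2 : ℝ) ^ ((1/2 - 3 * S.d) * k) ≤ h → h ≤ x →
    ∑ n ∈ (Finset.Ico x (x + h)).filter (rough k0),
      ∑ e ∈ n.divisors.filter (fun e : ℕ => (2 : ℝ) ^ ((k : ℝ) / 8) ≤ (e : ℝ) ∧ inR R e),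
        S.base e * ((n / e : ℕ) : ℝ) ^ (S.s - 1) ≤
      h * (2 : ℝ) ^ ((S.s - 1 - S.tau / 20) * k)
  heavy1 : ∀ k, k0 ≤ k → ∀ j < nc S.d k, S.HP k0 R k j Q1 ≤ (2 : ℝ) ^ (-(S.ep / 100) * k) * S.G k
  heavy2 : ∀ k, k0 ≤ k → ∀ j < nc S.d k,
    S.HP k0 R k j S.Q2 ≤ (2 : ℝ) ^ (-(S.ep / 100) * k) * S.G k

end Sys

/-! ## The main chain -/

/-- (SYS) a control system exists [number theory: Theorem C (Helper60 / KS), CountE2, F2, RoughAvail3,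
power lemma] -/
def ExistsSys : Prop := Nonempty Sys

/-- (E) a good set `R` exists [probability: helper62, from the first moment inequalities below] -/
def ExistsGood : Prop := ∀ S : Sys, ∃ K0 : ℕ, ∀ k0 : ℕ, K0 ≤ k0 → ∃ R : Set ℕ, S.Good k0 R

/-- (STAR) the main inequality -/
def GoodStar : Prop := ∀ S : Sys, ∃ K0 : ℕ, ∀ k0 : ℕ, K0 ≤ k0 → ∀ R : Set ℕ, S.Good k0 R →
  S.Star k0 R

/-- (FP) fixed point: all cell sums vanish.  (`3 ≤ k0`, `S.K ≤ k0`; the normalisers `NN` of the bad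
cells are positive.)  The proof: the sum of `ft` over the cell `i` is `t i * G i + P i t`, `P i` a
polynomial with nonnegative coefficients and `P i 2 ≤ G i / 4` by `Star`. -/
def FP : Prop := ∀ S : Sys, ∀ k0 : ℕ, 3 ≤ k0 → S.K ≤ k0 → ∀ R : Set ℕ,
  (∀ r ∈ R, r.Prime) → (∀ k, k0 ≤ k → ∀ j ∈ S.badc k, 0 < S.NN R k j) → S.Star k0 R →
  ∃ t : ℕ × ℕ → ℝ, (∀ i, |t i| ≤ 1) ∧
    ∑ n ∈ Finset.Ico 1 (2 ^ k0), S.ft k0 R t n = 0 ∧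
    ∀ k, k0 ≤ k → ∀ j < nc S.d k, ∑ n ∈ cell S.d k j, S.ft k0 R t n = 0

/-- (Last) from vanishing cell sums to the decay of the partial sums -/
def Last : Prop := ∀ S : Sys, ∀ k0 : ℕ, 3 ≤ k0 → ∀ R : Set ℕ,
  (∀ r ∈ R, r.Prime) → (∀ k, k0 ≤ k → ∀ j ∈ S.badc k, 0 < S.NN R k j) → S.Star k0 R →
  ∀ t : ℕ × ℕ → ℝ, (∀ i, |t i| ≤ 1) →
    ∑ n ∈ Finset.Ico 1 (2 ^ k0), S.ft k0 R t n = 0 →
    (∀ k, k0 ≤ k → ∀ j < nc S.d k, ∑ n ∈ cell S.d k j, S.ft k0 R t n = 0) →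
    ∃ C : ℝ, ∀ N : ℕ, 1 ≤ N →
      |∑ n ∈ Finset.Icc 1 N, S.ft k0 R t n| ≤ C * (N : ℝ) ^ (-(1/2 + S.d / 2))

/-! ## First moment inequalities (deterministic), the input of `ExistsGood` -/

/-- (LOAD1) non-direct loads, conditional on any finite set `A`
[helper18 / helper35: load theorem] -/
def Load1 : Prop := ∀ S : Sys, ∃ K0 : ℕ, ∀ k0 : ℕ, K0 ≤ k0 → ∀ k, k0 ≤ k → ∀ j < nc S.d k,
  ∀ A : Finset ℕ, S.LP k0 k j Sys.Q1 A ≤ (2 : ℝ) ^ (-(S.ep / 50) * k) * S.G k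

/-- (LOAD2) direct loads with a large cofactor, conditional on any finite set `A` -/
def Load2 : Prop := ∀ S : Sys, ∃ K0 : ℕ, ∀ k0 : ℕ, K0 ≤ k0 → ∀ k, k0 ≤ k → ∀ j < nc S.d k,
  ∀ A : Finset ℕ, S.LP k0 k j S.Q2 A ≤ (2 : ℝ) ^ (-(S.ep / 50) * k) * S.G k

/-- (CRUDE1) crude mass of windows -/
def Crude1 : Prop := ∀ S : Sys, ∃ K0 : ℕ, ∀ k0 : ℕ, K0 ≤ k0 → ∀ k x h : ℕ, (k0 : ℝ) / 2 ≤ k →
  2 ^ k ≤ x → x < 2 ^ (k + 1) → (2 : ℝ) ^ ((1/2 - 3 * S.d) * k) ≤ h → h ≤ x → ∀ A : Finset ℕ,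
  S.CP k0 x h A ≤ h * (2 : ℝ) ^ ((S.s - 1 + 6.5 * S.tau) * k)

/-- (RPART1) numbers with a large divisor composed of elements of `R` -/
def RPart1 : Prop := ∀ S : Sys, ∃ K0 : ℕ, ∀ k0 : ℕ, K0 ≤ k0 → ∀ k x h : ℕ, (k0 : ℝ) / 2 ≤ k →
  2 ^ k ≤ x → x < 2 ^ (k + 1) → (2 : ℝ) ^ ((1/2 - 3 * S.d) * k) ≤ h → h ≤ x → ∀ A : Finset ℕ,
  ∑ n ∈ (Finset.Ico x (x + h)).filter (Sys.rough k0),
    ∑ e ∈ n.divisors.filter (fun e : ℕ => (2 : ℝ) ^ ((k : ℝ) / 8) ≤ (e : ℝ) ∧ A ⊆ e.primeFactors),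
      S.base e * ((n / e : ℕ) : ℝ) ^ (S.s - 1) * S.pc A e.primeFactors ≤
    h * (2 : ℝ) ^ ((S.s - 1 - S.tau / 10) * k)

/-- (MULT1) number of owners of a prime, all proper conditionings (`A` a strict subset of the
support) -/
def Mult1 : Prop := ∀ S : Sys, ∃ K0 : ℕ, ∀ k : ℕ, K0 ≤ k → ∀ q : ℕ, ∀ A : Finset ℕ,
  ∑ j ∈ S.badc k, ∑ x ∈ (S.Cand k j).filter (fun x => x.1 = q ∧ A ⊂ x.2.primeFactors),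
    S.pc A x.2.primeFactors ≤ (2 : ℝ) ^ (-(S.c / 2) * (k : ℝ))

/-- (MASSC1) mass of the control primes -/
def MassC1 : Prop := ∀ S : Sys, ∃ K0 : ℕ, ∀ k : ℕ, K0 ≤ k → ∀ A : Finset ℕ,
  ∑ j ∈ S.badc k, ∑ x ∈ (S.Cand k j).filter (fun x => A ⊆ x.2.primeFactors),
    S.wd k x.2 * (x.1 : ℝ) ^ (-S.s) * S.pc A x.2.primeFactors ≤ (2 : ℝ) ^ (-(S.c / 2) * (k : ℝ))

/-- (MASSR1) mass of `R` -/
def MassR1 : Prop := ∀ S : Sys, ∃ K0 : ℕ, ∀ k0 : ℕ, K0 ≤ k0 → ∀ T : Finset ℕ,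
  (∀ r ∈ T, (2 : ℝ) ^ ((k0 : ℝ) / 5) ≤ r) →
  ∑ r ∈ T, S.pr r * (S.base r * (r : ℝ) ^ (-S.s) * (1 + Real.log r) ^ 2) ≤
    (2 : ℝ) ^ (-(S.tau / 6) * (k0 : ℝ))

/-- (CAND1) proper conditionings of the candidates of a bad cell in a window (in particular of all
the candidates): the conditional normalised number is smaller by a power than the window, also after
multiplication with the number of bad cells of the class if the window is the whole cell. -/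
def Cand1 : Prop := ∀ S : Sys, ∃ K0 : ℕ, ∀ k : ℕ, K0 ≤ k → ∀ j ∈ S.badc k,
  ∀ A : Finset ℕ, A.Nonempty →
  (∑ x ∈ (S.Cand k j).filter (fun x => A ⊆ x.2.primeFactors),
      S.pc A x.2.primeFactors / S.pr x.2 ≤
    (2 : ℝ) ^ (-(S.u (S.cls k j) + S.c / 2) * k) * 2 ^ ec S.d k) ∧
  ∀ x h : ℕ, (2 : ℝ) ^ (0.38 * (k : ℝ)) ≤ h →
    ∑ y ∈ (S.Cand k j).filter (fun y => A ⊆ y.2.primeFactors ∧ x ≤ y.1 * y.2 ∧ y.1 * y.2 < x + h),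
      S.pc A y.2.primeFactors / S.pr y.2 ≤ (2 : ℝ) ^ (-(0.01 : ℝ) * k) * h

/-! ## Consequences of `Good`, the parts of `GoodStar` -/

/-- (WOLE) `NN ≥ card / 2` and `many` -/
def WoLe : Prop := ∀ S : Sys, ∃ K0 : ℕ, ∀ k0 : ℕ, K0 ≤ k0 → ∀ R : Set ℕ, S.Good k0 R →
  ∀ k, k0 ≤ k → ∀ j ∈ S.badc k, ∀ m : ℕ, 1 ≤ m →
    0 ≤ S.wo R k j m ∧ S.wo R k j m ≤ (2 / S.c1) / (k : ℝ) ^ 2 * S.wd k m

/-- (ORDLE) ordinary weights -/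
def OrdLe : Prop := ∀ S : Sys, ∃ C : ℝ, ∃ K0 : ℕ, ∀ k0 : ℕ, K0 ≤ k0 → ∀ p : ℕ, p.Prime →
  0 ≤ S.ordw k0 p ∧ S.ordw k0 p ≤ C * ((p : ℝ) ^ (S.s - 1) / Real.log p ^ 3)

/-- (CTLLE) control weights -/
def CtlLe : Prop := ∀ S : Sys, ∃ K0 : ℕ, ∀ k0 : ℕ, K0 ≤ k0 → ∀ R : Set ℕ, S.Good k0 R →
  ∀ q : ℕ, ∀ k1 ≤ top q, 0 ≤ S.ctl k0 k1 R q ∧ 2 * S.ctl k0 k1 R q ≤ (q : ℝ) ^ (S.s - 1 + 5 * S.tau)
    ∧ ((q : ℝ) < (2 : ℝ) ^ ((k0 : ℝ) / 3) → S.ctl k0 k1 R q = 0)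

/-- (WPLE) `Wp ≤ Fh` -/
def WpLe : Prop := ∀ S : Sys, ∃ K0 : ℕ, ∀ k0 : ℕ, K0 ≤ k0 → ∀ R : Set ℕ, S.Good k0 R →
  ∀ p : ℕ, p.Prime → 0 ≤ S.Wp k0 R p ∧ S.Wp k0 R p ≤ S.Fh k0 R p

/-- (SUMW) the cofactors -/
def SumW : Prop := ∀ S : Sys, ∃ C : ℝ, ∃ K0 : ℕ, ∀ k0 : ℕ, K0 ≤ k0 → ∀ R : Set ℕ, S.Good k0 R →
  ∀ T : Finset ℕ, (∀ n ∈ T, 2 ≤ n) →
    ∑ n ∈ T, S.W k0 R n * (n : ℝ) ^ (-S.s) * (1 + Real.log n) ^ 2 ≤ C / k0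

/-- (RANK) light control part: numbers composed of control primes with owners in blocks `< κ` -/
def Rank : Prop := ∀ S : Sys, ∃ K0 : ℕ, ∀ k0 : ℕ, K0 ≤ k0 → ∀ R : Set ℕ, S.Good k0 R →
  ∀ T : Finset ℕ, (∀ n ∈ T, 2 ≤ n) → ∀ κ : ℕ,
    ∑ n ∈ T, CM (fun p => 6 * S.ctl k0 (min (top p) κ) R p) n * (n : ℝ) ^ (-S.s + S.c / 10) ≤
      (2 : ℝ) ^ (-(S.c / 20) * (k0 : ℝ))

/-- (ORDWIN) ordinary numbers in windows `[x, x + h)`, `h ≥ x^(1/3)` -/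
def OrdWin : Prop := ∀ S : Sys, ∃ C : ℝ, ∃ K0 : ℕ, ∀ k0 : ℕ, K0 ≤ k0 → ∀ x h : ℕ,
  (x : ℝ) ^ (1 / 3 : ℝ) ≤ h → h ≤ x → 2 ≤ x →
  ∑ n ∈ Finset.Ico x (x + h), CM (fun p => 6 * S.ordw k0 p) n ≤
    C * (h * (x : ℝ) ^ (S.s - 1) / Real.log x ^ 4) ∧
  ∑ n ∈ (Finset.Ico x (x + h)).filter (fun n => ¬ n.Prime), CM (fun p => 6 * S.ordw k0 p) n ≤
    C / k0 * (h * (x : ℝ) ^ (S.s - 1) / Real.log x ^ 4)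

/-- (LIGHT) cells, heavy control part removed -/
def Light : Prop := ∀ S : Sys, ∃ K0 : ℕ, ∀ k0 : ℕ, K0 ≤ k0 → ∀ R : Set ℕ, S.Good k0 R →
  ∀ k, k0 ≤ k → ∀ j < nc S.d k,
    ∑ n ∈ cell S.d k j, CM (S.Wl k0 R k) n ≤ (if S.bad k j then 0 else 2) * S.G k + S.G k / 20

/-- (EXPAND) expansion with respect to one heavy control prime -/
def Expand : Prop := ∀ S : Sys, ∃ K0 : ℕ, ∀ k0 : ℕ, K0 ≤ k0 → ∀ R : Set ℕ, S.Good k0 R →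
  ∀ k, k0 ≤ k → ∀ j < nc S.d k,
    ∑ n ∈ cell S.d k j, S.W k0 R n ≤ ∑ n ∈ cell S.d k j, CM (S.Wl k0 R k) n +
      (S.HT k0 R k j Sys.Q1 + S.HT k0 R k j S.Q2 + S.HT k0 R k j S.Q3 + S.HT k0 R k j Sys.Q4)

/-- (H12) non-direct terms and direct terms with large cofactor -/
def H12 : Prop := ∀ S : Sys, ∃ K0 : ℕ, ∀ k0 : ℕ, K0 ≤ k0 → ∀ R : Set ℕ, S.Good k0 R →
  ∀ k, k0 ≤ k → ∀ j < nc S.d k, S.HT k0 R k j Sys.Q1 + S.HT k0 R k j S.Q2 ≤ S.G k / 20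

/-- (H3) direct terms with small cofactor -/
def H3 : Prop := ∀ S : Sys, ∃ K0 : ℕ, ∀ k0 : ℕ, K0 ≤ k0 → ∀ R : Set ℕ, S.Good k0 R →
  ∀ k, k0 ≤ k → ∀ j < nc S.d k, S.HT k0 R k j S.Q3 ≤ S.G k / 20

/-- (H4) own terms -/
def H4 : Prop := ∀ S : Sys, ∃ K0 : ℕ, ∀ k0 : ℕ, K0 ≤ k0 → ∀ R : Set ℕ, S.Good k0 R →
  ∀ k, k0 ≤ k → ∀ j < nc S.d k,
    S.HT k0 R k j Sys.Q4 ≤ (if S.bad k j then 2 else 0) * S.G k + S.G k / 20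

/-- (INIT) the initial cell -/
def Init : Prop := ∀ S : Sys, ∃ K0 : ℕ, ∀ k0 : ℕ, K0 ≤ k0 → ∀ R : Set ℕ, S.Good k0 R →
  ∑ n ∈ Finset.Ico 1 (2 ^ k0), S.W k0 R n ≤ (2 + 1/4) * S.G0 k0

end Pool.Agent.Helper16.KS
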