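import Pool.Agent.Helper16.KS.Basic

/-!
# Project KS: the decay of the partial sums (Prop `Last`)
-/

set_option autoImplicit false
open scoped Classical

namespace Pool.Agent.Helper16.KS

namespace Sys

variable (S : Sys)

/-- the first `J` cells of a block -/
theorem sum_cells (f : ℕ → ℝ) (k J : ℕ) :
    ∑ n ∈ Finset.Ico (2 ^ k) (2 ^ k + J * 2 ^ ec S.d k), f n =
      ∑ j ∈ Finset.range J, ∑ n ∈ cell S.d k j, f n := by
  induction J with
  | zero => simp
  | succ J ih =>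
    rw [Finset.sum_range_succ, ← ih]
    unfold cell
    rw [Finset.sum_Ico_consecutive]
    · exact Nat.le_add_right _ _
    · exact Nat.add_le_add_left (Nat.mul_le_mul_right _ (Nat.le_succ J)) _

theorem nc_mul (k : ℕ) : nc S.d k * 2 ^ ec S.d k = 2 ^ k := by
  unfold nc
  rw [← pow_add, Nat.sub_add_cancel (ec_le S.d S.d_pos k)]

theorem sum_block (f : ℕ → ℝ) (k : ℕ) :
    ∑ n ∈ Finset.Ico (2 ^ k) (2 ^ (k + 1)), f n =
      ∑ j ∈ Finset.range (nc S.d k), ∑ n ∈ cell S.d k j, f n := by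
  rw [← S.sum_cells f k (nc S.d k), S.nc_mul]
  congr 2
  ring

theorem sum_blocks_zero (f : ℕ → ℝ) (k0 : ℕ) (h0 : ∑ n ∈ Finset.Ico 1 (2 ^ k0), f n = 0)
    (h : ∀ k, k0 ≤ k → ∀ j < nc S.d k, ∑ n ∈ cell S.d k j, f n = 0) (k : ℕ) (hk : k0 ≤ k) :
    ∑ n ∈ Finset.Ico 1 (2 ^ k), f n = 0 := by
  induction k, hk using Nat.le_induction with
  | base => exact h0
  | succ k hk ih =>
    rw [← Finset.sum_Ico_consecutive f (m := 1) (n := 2 ^ k) (k := 2 ^ (k + 1))
      Nat.one_le_two_pow (Nat.pow_le_pow_right (by norm_num) (Nat.le_succ k)), ih, S.sum_block]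
    rw [Finset.sum_eq_zero fun j hj => h k hk j (Finset.mem_range.mp hj)]
    simp

/-- `|fp| ≤ Wp` -/
theorem abs_fp_le (k0 : ℕ) (R : Set ℕ) (t : ℕ × ℕ → ℝ) (ht : ∀ i, |t i| ≤ 1) (p : ℕ) :
    |S.fp k0 R t p| ≤ S.Wp k0 R p := by
  have h1 := S.bR_nonneg R p
  have h2 := S.ordw_nonneg k0 p
  have h3 : |t (S.cix k0 p) * S.ordw k0 p| ≤ S.ordw k0 p := by
    rw [abs_mul, abs_of_nonneg h2]
    calc |t (S.cix k0 p)| * S.ordw k0 p ≤ 1 * S.ordw k0 p :=
          mul_le_mul_of_nonneg_right (ht _) h2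
      _ = _ := one_mul _
  have h4 : |∑ k ∈ Finset.Ico k0 (top p), ∑ j ∈ S.badc k, t (k, j) * S.cw R k j p| ≤
      S.ctl k0 (top p) R p := by
    unfold ctl
    refine (Finset.abs_sum_le_sum_abs _ _).trans (Finset.sum_le_sum fun k _ => ?_)
    refine (Finset.abs_sum_le_sum_abs _ _).trans (Finset.sum_le_sum fun j _ => ?_)
    have h5 := S.cw_nonneg R k j p
    rw [abs_mul, abs_of_nonneg h5]
    calc |t (k, j)| * S.cw R k j p ≤ 1 * S.cw R k j p := mul_le_mul_of_nonneg_right (ht _) h5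
      _ = _ := one_mul _
  have h5 := S.ctl_nonneg k0 (top p) R p
  unfold fp Wp
  refine (abs_add_le _ _).trans ((add_le_add (abs_add_le _ _) le_rfl).trans ?_)
  rw [abs_of_nonneg h1]
  linarith

theorem abs_ft_le (k0 : ℕ) (R : Set ℕ) (t : ℕ × ℕ → ℝ) (ht : ∀ i, |t i| ≤ 1) (n : ℕ) :
    |S.ft k0 R t n| ≤ S.W k0 R n := by
  unfold ft W
  rw [abs_CM]
  exact CM_mono (fun p _ _ => abs_nonneg _) (fun p _ _ => S.abs_fp_le k0 R t ht p)

theorem G_le (k : ℕ) (hk : 1 ≤ k) : S.G k ≤ (2 : ℝ) ^ (-(1/2 + S.d / 2) * k) := by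
  have hd := S.d_pos
  have h1 : (2 : ℝ) ^ ec S.d k ≤ (2 : ℝ) ^ ((k : ℝ) * (1/2 - S.d)) := by
    rw [← Real.rpow_natCast]
    refine Real.rpow_le_rpow_of_exponent_le (by norm_num) ?_
    unfold ec
    refine Nat.floor_le (mul_nonneg (Nat.cast_nonneg _) ?_)
    have := S.d_le'
    norm_num at this ⊢
    linarith
  have h2 : (1 : ℝ) ≤ (k : ℝ) ^ 4 := one_le_pow₀ (by exact_mod_cast hk)
  have h3 : S.G k ≤ 2 ^ ec S.d k * (2 : ℝ) ^ ((S.s - 1) * k) := by
    unfold G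
    exact div_le_self (by positivity) h2
  refine h3.trans ?_
  calc (2 : ℝ) ^ ec S.d k * (2 : ℝ) ^ ((S.s - 1) * k)
      ≤ (2 : ℝ) ^ ((k : ℝ) * (1/2 - S.d)) * (2 : ℝ) ^ ((S.s - 1) * k) :=
        mul_le_mul_of_nonneg_right h1 (by positivity)
    _ = (2 : ℝ) ^ (-(1/2 + S.d / 2) * k) := by
        rw [← Real.rpow_add (by norm_num), S.s_eq]
        congr 1
        ring

end Sys

theorem last : Last := by
  intro S k0 hk0 R _ _ hstar t ht h0 hcell
  have hd := S.d_pos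
  set e : ℝ := 1/2 + S.d / 2 with he
  have he0 : 0 < e := by rw [he]; linarith
  set C0 : ℝ := ∑ n ∈ Finset.Ico 1 (2 ^ k0), S.W k0 R n with hC0
  have hC00 : 0 ≤ C0 := Finset.sum_nonneg fun n _ => S.W_nonneg _ _ _
  refine ⟨C0 * (2 : ℝ) ^ (e * k0) + (2 + 1/4) * (2 : ℝ) ^ e, fun N hN => ?_⟩
  have hNr : (0 : ℝ) < N := by exact_mod_cast hN
  have hNe : 0 < (N : ℝ) ^ (-e) := Real.rpow_pos_of_pos hNr _
  rw [add_mul]
  by_cases hlt : N < 2 ^ k0
  · -- small `N`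
    have h1 : |∑ n ∈ Finset.Icc 1 N, S.ft k0 R t n| ≤ C0 := by
      refine (Finset.abs_sum_le_sum_abs _ _).trans ?_
      refine (Finset.sum_le_sum fun n _ => S.abs_ft_le k0 R t ht n).trans ?_
      refine Finset.sum_le_sum_of_subset_of_nonneg ?_ fun n _ _ => S.W_nonneg _ _ _
      intro n hn
      rw [Finset.mem_Icc] at hn
      rw [Finset.mem_Ico]
      omega
    have h2 : (1 : ℝ) ≤ (2 : ℝ) ^ (e * k0) * (N : ℝ) ^ (-e) := by
      have h3 : (N : ℝ) ≤ (2 : ℝ) ^ (k0 : ℝ) := by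
        rw [Real.rpow_natCast]
        exact_mod_cast hlt.le
      have h4 : (N : ℝ) ^ e ≤ (2 : ℝ) ^ (e * k0) := by
        refine (Real.rpow_le_rpow hNr.le h3 he0.le).trans ?_
        rw [← Real.rpow_mul (by norm_num), mul_comm]
      rw [Real.rpow_neg hNr.le, ← div_eq_mul_inv, le_div_iff₀ (Real.rpow_pos_of_pos hNr _), one_mul]
      exact h4
    have h5 : C0 ≤ C0 * (2 : ℝ) ^ (e * k0) * (N : ℝ) ^ (-e) := by
      rw [mul_assoc]
      exact le_mul_of_one_le_right hC00 h2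
    have h6 : 0 ≤ (2 + 1/4) * (2 : ℝ) ^ e * (N : ℝ) ^ (-e) := by positivity
    linarith
  · rw [not_lt] at hlt
    have hN0 : N ≠ 0 := by omega
    set k := Nat.log 2 N with hk
    have hkk : k0 ≤ k := Nat.le_log_of_pow_le (by norm_num) hlt
    have hk1 : 1 ≤ k := by omega
    set j := S.idx N with hj
    have hjlt : j < nc S.d k := S.idx_lt N
    have hmem : N ∈ cell S.d k j := S.mem_cell_idx hN0
    rw [mem_cell] at hmem
    -- decomposition
    have h1 : ∑ n ∈ Finset.Icc 1 N, S.ft k0 R t n =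
        ∑ n ∈ Finset.Ico (2 ^ k + j * 2 ^ ec S.d k) (N + 1), S.ft k0 R t n := by
      have h2 : Finset.Icc 1 N = Finset.Ico 1 (N + 1) := by
        ext x
        rw [Finset.mem_Icc, Finset.mem_Ico]
        omega
      rw [h2, ← Finset.sum_Ico_consecutive (S.ft k0 R t) (m := 1) (n := 2 ^ k) (k := N + 1)
        Nat.one_le_two_pow (by omega), S.sum_blocks_zero _ k0 h0 hcell k hkk, zero_add,
        ← Finset.sum_Ico_consecutive (S.ft k0 R t) (m := 2 ^ k) (n := 2 ^ k + j * 2 ^ ec S.d k)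
        (k := N + 1) (Nat.le_add_right _ _) (by omega), S.sum_cells,
        Finset.sum_eq_zero fun i hi => hcell k hkk i ((Finset.mem_range.mp hi).trans hjlt), zero_add]
    have h3 : |∑ n ∈ Finset.Icc 1 N, S.ft k0 R t n| ≤ (2 + 1/4) * S.G k := by
      rw [h1]
      refine (Finset.abs_sum_le_sum_abs _ _).trans ?_
      refine (Finset.sum_le_sum fun n _ => S.abs_ft_le k0 R t ht n).trans ?_
      refine le_trans ?_ (hstar.2 k hkk j hjlt)
      refine Finset.sum_le_sum_of_subset_of_nonneg ?_ fun n _ _ => S.W_nonneg _ _ _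
      intro n hn
      rw [Finset.mem_Ico] at hn
      rw [mem_cell]
      omega
    have h4 : S.G k ≤ (2 : ℝ) ^ e * (N : ℝ) ^ (-e) := by
      refine (S.G_le k hk1).trans ?_
      have h5 : (N : ℝ) ≤ (2 : ℝ) ^ ((k : ℝ) + 1) := by
        have h6 : N < 2 ^ (k + 1) := Nat.lt_pow_succ_log_self (by norm_num) N
        have h7 : (2 : ℝ) ^ ((k : ℝ) + 1) = ((2 ^ (k + 1) : ℕ) : ℝ) := by
          push_cast
          rw [← Real.rpow_natCast]
          push_cast
          rfl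
        rw [h7]
        exact_mod_cast h6.le
      have h8 : (N : ℝ) ^ e ≤ (2 : ℝ) ^ (e * ((k : ℝ) + 1)) := by
        refine (Real.rpow_le_rpow hNr.le h5 he0.le).trans ?_
        rw [← Real.rpow_mul (by norm_num), mul_comm]
      rw [Real.rpow_neg hNr.le, ← div_eq_mul_inv, le_div_iff₀ (Real.rpow_pos_of_pos hNr _)]
      calc (2 : ℝ) ^ (-e * k) * (N : ℝ) ^ e ≤ (2 : ℝ) ^ (-e * k) * (2 : ℝ) ^ (e * ((k : ℝ) + 1)) :=
            mul_le_mul_of_nonneg_left h8 (by positivity)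
        _ = (2 : ℝ) ^ e := by
            rw [← Real.rpow_add (by norm_num)]
            congr 1
            ring
    have h9 : 0 ≤ C0 * (2 : ℝ) ^ (e * k0) * (N : ℝ) ^ (-e) := by positivity
    calc |∑ n ∈ Finset.Icc 1 N, S.ft k0 R t n| ≤ (2 + 1/4) * S.G k := h3
      _ ≤ (2 + 1/4) * ((2 : ℝ) ^ e * (N : ℝ) ^ (-e)) :=
          mul_le_mul_of_nonneg_left h4 (by norm_num)
      _ ≤ _ := by
          rw [← mul_assoc]
          linarith

end Pool.Agent.Helper16.KS
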