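import Pool.Agent.Helper16.KS.St

/-!
# Project KS: common lemmas
-/

set_option autoImplicit false
open scoped Classical

namespace Pool.Agent.Helper16.KS

/-! ### completely multiplicative extensions -/

theorem CM_one (g : ℕ → ℝ) : CM g 1 = 1 := by simp [CM]

theorem CM_zero (g : ℕ → ℝ) : CM g 0 = 1 := by simp [CM]

theorem CM_prime (g : ℕ → ℝ) {p : ℕ} (hp : p.Prime) : CM g p = g p := by
  simp [CM, Nat.primeFactorsList_prime hp]

theorem CM_mul (g : ℕ → ℝ) {m n : ℕ} (hm : m ≠ 0) (hn : n ≠ 0) :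
    CM g (m * n) = CM g m * CM g n := by
  unfold CM
  rw [((Nat.perm_primeFactorsList_mul hm hn).map g).prod_eq, List.map_append, List.prod_append]

theorem CM_eq_prod (g : ℕ → ℝ) (n : ℕ) :
    CM g n = ∏ p ∈ n.primeFactors, g p ^ n.factorization p := by
  unfold CM
  rw [Finset.prod_list_map_count]
  refine Finset.prod_congr rfl fun p _ => ?_
  rw [Nat.primeFactorsList_count_eq]

theorem CM_squarefree (g : ℕ → ℝ) {n : ℕ} (hn : Squarefree n) :
    CM g n = ∏ p ∈ n.primeFactors, g p := by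
  rw [CM_eq_prod]
  refine Finset.prod_congr rfl fun p hp => ?_
  have h1 : n.factorization p ≤ 1 := hn.natFactorization_le_one p
  have h2 : 0 < n.factorization p := by
    have := Nat.mem_primeFactors.mp hp
    exact this.1.factorization_pos_of_dvd this.2.2 this.2.1
  have h3 : n.factorization p = 1 := by omega
  rw [h3, pow_one]

theorem CM_nonneg {g : ℕ → ℝ} {n : ℕ} (h : ∀ p : ℕ, p.Prime → p ∣ n → 0 ≤ g p) : 0 ≤ CM g n := by
  rw [CM_eq_prod]
  exact Finset.prod_nonneg fun p hp => pow_nonneg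
    (h p (Nat.prime_of_mem_primeFactors hp) (Nat.dvd_of_mem_primeFactors hp)) _

theorem CM_pos {g : ℕ → ℝ} {n : ℕ} (h : ∀ p : ℕ, p.Prime → p ∣ n → 0 < g p) : 0 < CM g n := by
  rw [CM_eq_prod]
  exact Finset.prod_pos fun p hp => pow_pos
    (h p (Nat.prime_of_mem_primeFactors hp) (Nat.dvd_of_mem_primeFactors hp)) _

theorem CM_mono {g h : ℕ → ℝ} {n : ℕ} (h0 : ∀ p : ℕ, p.Prime → p ∣ n → 0 ≤ g p)
    (h1 : ∀ p : ℕ, p.Prime → p ∣ n → g p ≤ h p) : CM g n ≤ CM h n := by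
  rw [CM_eq_prod, CM_eq_prod]
  refine Finset.prod_le_prod (fun p hp => pow_nonneg
    (h0 p (Nat.prime_of_mem_primeFactors hp) (Nat.dvd_of_mem_primeFactors hp)) _) fun p hp => ?_
  exact pow_le_pow_left₀ (h0 p (Nat.prime_of_mem_primeFactors hp) (Nat.dvd_of_mem_primeFactors hp))
    (h1 p (Nat.prime_of_mem_primeFactors hp) (Nat.dvd_of_mem_primeFactors hp)) _

theorem CM_congr {g h : ℕ → ℝ} {n : ℕ} (h1 : ∀ p : ℕ, p.Prime → p ∣ n → g p = h p) :
    CM g n = CM h n := by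
  rw [CM_eq_prod, CM_eq_prod]
  refine Finset.prod_congr rfl fun p hp => ?_
  rw [h1 p (Nat.prime_of_mem_primeFactors hp) (Nat.dvd_of_mem_primeFactors hp)]

theorem CM_mul_fun (g h : ℕ → ℝ) (n : ℕ) : CM (fun p => g p * h p) n = CM g n * CM h n := by
  simp only [CM_eq_prod, mul_pow, Finset.prod_mul_distrib]

theorem abs_CM (g : ℕ → ℝ) (n : ℕ) : |CM g n| = CM (fun p => |g p|) n := by
  simp only [CM_eq_prod, Finset.abs_prod, abs_pow]

theorem CM_const (c : ℝ) (n : ℕ) : CM (fun _ => c) n = c ^ n.primeFactorsList.length := by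
  simp [CM]

theorem CM_rpow (a : ℝ) {n : ℕ} (hn : n ≠ 0) : CM (fun p => (p : ℝ) ^ a) n = (n : ℝ) ^ a := by
  induction n using Nat.recOnMul with
  | zero => exact absurd rfl hn
  | one => simp [CM_one]
  | prime p hp => exact CM_prime _ hp
  | mul m k hm hk =>
    have hm0 : m ≠ 0 := left_ne_zero_of_mul hn
    have hk0 : k ≠ 0 := right_ne_zero_of_mul hn
    rw [CM_mul _ hm0 hk0, hm hm0, hk hk0, Nat.cast_mul,
      Real.mul_rpow (Nat.cast_nonneg _) (Nat.cast_nonneg _)]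

theorem CM_eq_zero {g : ℕ → ℝ} {n p : ℕ} (hn : n ≠ 0) (hp : p.Prime) (hpn : p ∣ n)
    (h : g p = 0) : CM g n = 0 := by
  rw [CM_eq_prod]
  refine Finset.prod_eq_zero (Nat.mem_primeFactors.mpr ⟨hp, hpn, hn⟩) ?_
  rw [h, zero_pow]
  exact (hp.factorization_pos_of_dvd hn hpn).ne'

/-! ### cells -/

theorem ec_le (d : ℝ) (hd : 0 < d) (k : ℕ) : ec d k ≤ k := by
  unfold ec
  refine Nat.floor_le_of_le ?_
  have : (0 : ℝ) ≤ k := Nat.cast_nonneg k
  nlinarith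

theorem mem_cell {d : ℝ} {k j n : ℕ} :
    n ∈ cell d k j ↔ 2 ^ k + j * 2 ^ ec d k ≤ n ∧ n < 2 ^ k + (j + 1) * 2 ^ ec d k := by
  simp [cell]

theorem cell_lt {d : ℝ} (hd : 0 < d) {k j n : ℕ} (hj : j < nc d k) (hn : n ∈ cell d k j) :
    n < 2 ^ (k + 1) := by
  rw [mem_cell] at hn
  have h1 : (j + 1) * 2 ^ ec d k ≤ 2 ^ (k - ec d k) * 2 ^ ec d k :=
    Nat.mul_le_mul_right _ hj
  rw [← pow_add, Nat.sub_add_cancel (ec_le d hd k)] at h1
  have h2 : 2 ^ (k + 1) = 2 ^ k + 2 ^ k := by ring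
  omega

theorem cell_ge {d : ℝ} {k j n : ℕ} (hn : n ∈ cell d k j) : 2 ^ k ≤ n := by
  rw [mem_cell] at hn
  omega

theorem cell_log {d : ℝ} (hd : 0 < d) {k j n : ℕ} (hj : j < nc d k) (hn : n ∈ cell d k j) :
    Nat.log 2 n = k :=
  Nat.log_eq_of_pow_le_of_lt_pow (cell_ge hn) (cell_lt hd hj hn)

namespace Sys

variable (S : Sys)

theorem cell_idx {k j n : ℕ} (hj : j < nc S.d k) (hn : n ∈ cell S.d k j) : S.idx n = j := by
  unfold idx
  rw [cell_log S.d_pos hj hn]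
  rw [mem_cell] at hn
  have h2 : 0 < 2 ^ ec S.d k := by positivity
  refine Nat.div_eq_of_lt_le ?_ ?_
  · omega
  · omega

theorem mem_cell_idx {n : ℕ} (hn : n ≠ 0) : n ∈ cell S.d (Nat.log 2 n) (S.idx n) := by
  rw [mem_cell]
  unfold idx
  have h1 : 2 ^ Nat.log 2 n ≤ n := Nat.pow_log_le_self 2 hn
  have h2 : 0 < 2 ^ ec S.d (Nat.log 2 n) := by positivity
  have h3 := Nat.div_mul_le_self (n - 2 ^ Nat.log 2 n) (2 ^ ec S.d (Nat.log 2 n))
  have h4 := Nat.lt_div_mul_add h2 (a := n - 2 ^ Nat.log 2 n)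
  constructor
  · omega
  · rw [add_mul, one_mul]
    omega

theorem idx_lt (n : ℕ) : S.idx n < nc S.d (Nat.log 2 n) := by
  unfold idx nc
  have h2 : 0 < 2 ^ ec S.d (Nat.log 2 n) := by positivity
  rw [Nat.div_lt_iff_lt_mul h2, ← pow_add, Nat.sub_add_cancel (ec_le S.d S.d_pos _)]
  have h1 : n < 2 ^ (Nat.log 2 n + 1) := Nat.lt_pow_succ_log_self (by norm_num) n
  have h3 : 2 ^ (Nat.log 2 n + 1) = 2 ^ Nat.log 2 n + 2 ^ Nat.log 2 n := by ring
  have h4 : 0 < 2 ^ Nat.log 2 n := by positivity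
  omega

theorem mem_badc {k j : ℕ} : j ∈ S.badc k ↔ j < nc S.d k ∧ S.bad k j := by
  unfold badc
  rw [Finset.mem_filter, Finset.mem_range]

theorem mem_act {R : Set ℕ} {k j : ℕ} {x : ℕ × ℕ} :
    x ∈ S.act R k j ↔ x ∈ S.Cand k j ∧ inR R x.2 := by
  unfold act
  rw [Finset.mem_filter]

/-- basic facts about candidates -/
theorem cand_facts {k j : ℕ} (hk : S.K ≤ k) (hj : j ∈ S.badc k) {x : ℕ × ℕ}
    (hx : x ∈ S.Cand k j) :
    x.1.Prime ∧ Squarefree x.2 ∧ x.1.Coprime x.2 ∧ 1 < x.2 ∧ x.1 * x.2 ∈ cell S.d k j ∧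
      2 ^ k ≤ x.1 * x.2 ∧ x.1 * x.2 < 2 ^ (k + 1) ∧ (2 : ℝ) ^ ((k : ℝ) / 3) ≤ x.1 ∧ k < top x.1 := by
  rw [S.mem_badc] at hj
  obtain ⟨h1, h2, h3, h4, h5, -, -⟩ := S.cand k hk j hj.1 hj.2 x hx
  refine ⟨h1, h3.squarefree_of_dvd (Dvd.intro_left _ rfl), Nat.coprime_of_squarefree_mul h3, h4, h5,
    cell_ge h5, cell_lt S.d_pos hj.1 h5, h2, ?_⟩
  unfold top
  have h6 : x.1 < 2 ^ (Nat.log 2 x.1 + 1) := Nat.lt_pow_succ_log_self (by norm_num) _
  have h7 : (x.1 : ℝ) < (2 : ℝ) ^ ((Nat.log 2 x.1 + 1 : ℕ) : ℝ) := by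
    rw [Real.rpow_natCast]
    exact_mod_cast h6
  have h8 := (Real.rpow_lt_rpow_left_iff (by norm_num : (1 : ℝ) < 2)).mp (h2.trans_lt h7)
  have h9 : (k : ℝ) < (3 * (Nat.log 2 x.1 + 1) : ℕ) := by
    push_cast at h8 ⊢
    linarith
  exact_mod_cast h9

theorem cell_disj {k j k' j' n : ℕ} (hj : j < nc S.d k) (hj' : j' < nc S.d k')
    (hn : n ∈ cell S.d k j) (hn' : n ∈ cell S.d k' j') : k' = k ∧ j' = j := by
  have h1 := cell_log S.d_pos hj hn
  have h2 := cell_log S.d_pos hj' hn'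
  exact ⟨h2.symm.trans h1, (S.cell_idx hj' hn').symm.trans (S.cell_idx hj hn)⟩

/-! ### parameters -/

theorem c_pos : 0 < S.c := by
  have h1 := S.d_pos
  have h2 := S.d_le
  have h3 : S.d * 10 ^ 5 ≤ S.c := by
    rw [le_div_iff₀ (by positivity)] at h2
    exact h2
  nlinarith

theorem eta_pos : 0 < S.eta := by
  have := S.c_pos
  have := S.c_le
  linarith

theorem del_pos : 0 < S.del := lt_of_lt_of_le S.eta_pos S.eta_le

theorem c_le' : S.c ≤ 3 / 500 := by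
  have := S.c_le
  have := S.eta_le
  have := S.del_le
  linarith

theorem eta_le' : S.eta ≤ 3 / 50 := S.eta_le.trans S.del_le

theorem d_le' : S.d ≤ 3 / 5 / 10 ^ 7 := by
  have h := S.d_le
  have h1 := S.c_le'
  have : S.c / 10 ^ 5 ≤ (3 / 500) / 10 ^ 5 := div_le_div_of_nonneg_right h1 (by positivity)
  norm_num at this ⊢
  linarith

theorem d_le_c : S.d ≤ S.c / 10 ^ 5 := S.d_le

theorem s_pos : 0 < S.s := by
  have := S.d_pos
  unfold s
  linarith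

theorem s_eq : S.s = S.d / 2 := rfl

theorem s_lt : S.s < 1 / 10 ^ 6 := by
  have := S.d_le'
  rw [S.s_eq]
  norm_num at this ⊢
  linarith

theorem ep_pos : 0 < S.ep := mul_pos (mul_pos S.c_pos S.eta_pos) S.d_pos

theorem tau_pos : 0 < S.tau := by
  have := S.ep_pos
  unfold tau
  positivity

theorem ep_eq : S.ep = S.c * S.eta * S.d := rfl

theorem tau_eq : S.tau = S.ep / 10 ^ 4 := rfl

/-- `τ ≤ c d / 10^5` -/
theorem tau_le : S.tau ≤ S.c * S.d / 10 ^ 5 := by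
  rw [S.tau_eq, S.ep_eq]
  have h1 : S.eta ≤ 1 / 10 := by
    have := S.eta_le'
    linarith
  have h2 := mul_pos S.c_pos S.d_pos
  have h3 : S.c * S.eta * S.d ≤ S.c * S.d * (1 / 10) := by nlinarith
  calc S.c * S.eta * S.d / 10 ^ 4 ≤ S.c * S.d * (1 / 10) / 10 ^ 4 :=
        div_le_div_of_nonneg_right h3 (by positivity)
    _ = S.c * S.d / 10 ^ 5 := by ring

/-- `τ ≤ s / 10^6` -/
theorem tau_le_s : S.tau ≤ S.s / 10 ^ 6 := by
  have h1 := S.tau_le
  have h2 := S.c_le'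
  have h3 := S.d_pos
  rw [S.s_eq]
  have h4 : S.c * S.d ≤ (3 / 500) * S.d := mul_le_mul_of_nonneg_right h2 h3.le
  have h5 : S.c * S.d / 10 ^ 5 ≤ (3 / 500) * S.d / 10 ^ 5 :=
    div_le_div_of_nonneg_right h4 (by positivity)
  norm_num at h5 h1 ⊢
  linarith

theorem hh_eq : S.hh = 1/2 - S.s - S.del + S.tau := rfl

theorem hh_le : S.hh ≤ 1/2 - S.del := by
  have h1 := S.tau_le_s
  have h2 := S.s_pos
  rw [S.hh_eq]
  have : S.s / 10 ^ 6 ≤ S.s := by
    rw [div_le_iff₀ (by positivity)]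
    nlinarith
  linarith

theorem hh_ge : 2/5 ≤ S.hh := by
  have h1 := S.tau_pos
  have h2 := S.s_lt
  have h3 := S.del_le
  rw [S.hh_eq]
  norm_num at h2
  linarith

/-! ### `pr`, `base`, `G` -/

theorem pr_pos {m : ℕ} (hm : m ≠ 0) : 0 < S.pr m :=
  Real.rpow_pos_of_pos (by exact_mod_cast Nat.pos_of_ne_zero hm) _

theorem base_pos {m : ℕ} (hm : m ≠ 0) : 0 < S.base m :=
  Real.rpow_pos_of_pos (by exact_mod_cast Nat.pos_of_ne_zero hm) _

theorem pr_nonneg (m : ℕ) : 0 ≤ S.pr m := Real.rpow_nonneg (Nat.cast_nonneg _) _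

theorem base_nonneg (m : ℕ) : 0 ≤ S.base m := Real.rpow_nonneg (Nat.cast_nonneg _) _

theorem gam_nonneg (m : ℕ) : 0 ≤ S.gam m := Real.rpow_nonneg (Nat.cast_nonneg _) _

theorem pr_le_one {m : ℕ} (hm : m ≠ 0) : S.pr m ≤ 1 := by
  unfold pr
  refine Real.rpow_le_one_of_one_le_of_nonpos ?_ ?_
  · exact_mod_cast Nat.one_le_iff_ne_zero.mpr hm
  · have := S.hh_ge
    linarith

theorem base_le_one {m : ℕ} (hm : m ≠ 0) : S.base m ≤ 1 := by
  unfold base
  refine Real.rpow_le_one_of_one_le_of_nonpos ?_ ?_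
  · exact_mod_cast Nat.one_le_iff_ne_zero.mpr hm
  · have := S.del_pos
    linarith

theorem pr_mul (m n : ℕ) : S.pr (m * n) = S.pr m * S.pr n := by
  unfold pr
  rw [Nat.cast_mul, Real.mul_rpow (Nat.cast_nonneg _) (Nat.cast_nonneg _)]

theorem base_mul (m n : ℕ) : S.base (m * n) = S.base m * S.base n := by
  unfold base
  rw [Nat.cast_mul, Real.mul_rpow (Nat.cast_nonneg _) (Nat.cast_nonneg _)]

theorem pr_one : S.pr 1 = 1 := by simp [pr]

theorem base_one : S.base 1 = 1 := by simp [base]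

theorem pr_mul_base {m : ℕ} (hm : m ≠ 0) : S.pr m * S.base m = (m : ℝ) ^ (S.s - 1 - S.tau) := by
  unfold pr base
  rw [← Real.rpow_add (by exact_mod_cast Nat.pos_of_ne_zero hm), S.hh_eq]
  congr 1
  ring

theorem CM_base {n : ℕ} (hn : n ≠ 0) : CM S.base n = S.base n := CM_rpow _ hn

theorem prod_pr_primeFactors {m : ℕ} (hm : Squarefree m) :
    ∏ p ∈ m.primeFactors, S.pr p = S.pr m := by
  rw [← CM_squarefree S.pr hm]
  exact CM_rpow _ hm.ne_zero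

theorem G_pos {k : ℕ} (hk : 1 ≤ k) : 0 < S.G k := by
  have : (0 : ℝ) < k := by exact_mod_cast hk
  unfold G
  positivity

theorem G_nonneg (k : ℕ) : 0 ≤ S.G k := by
  unfold G
  positivity

/-! ### weights -/

theorem bR_nonneg (R : Set ℕ) (p : ℕ) : 0 ≤ S.bR R p := by
  unfold bR
  split_ifs
  · exact S.base_nonneg p
  · exact le_rfl

theorem ordw_nonneg (k0 p : ℕ) : 0 ≤ S.ordw k0 p := by
  unfold ordw
  split_ifs
  · exact le_rfl
  · unfold phi0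
    positivity
  · exact le_rfl
  · exact div_nonneg (S.G_nonneg _) (Nat.cast_nonneg _)

theorem NN_nonneg (R : Set ℕ) (k j : ℕ) : 0 ≤ S.NN R k j :=
  Finset.sum_nonneg fun x _ => div_nonneg zero_le_one (S.pr_nonneg _)

theorem wo_nonneg (R : Set ℕ) (k j m : ℕ) : 0 ≤ S.wo R k j m :=
  div_nonneg (S.G_nonneg _) (mul_nonneg (mul_nonneg (S.NN_nonneg _ _ _) (S.pr_nonneg _))
    (S.base_nonneg _))

theorem cw_nonneg (R : Set ℕ) (k j q : ℕ) : 0 ≤ S.cw R k j q :=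
  Finset.sum_nonneg fun x _ => S.wo_nonneg _ _ _ _

theorem ctl_nonneg (k0 k1 : ℕ) (R : Set ℕ) (q : ℕ) : 0 ≤ S.ctl k0 k1 R q :=
  Finset.sum_nonneg fun k _ => Finset.sum_nonneg fun j _ => S.cw_nonneg _ _ _ _

theorem ctl_mono {k0 k1 k2 : ℕ} (h : k1 ≤ k2) (R : Set ℕ) (q : ℕ) :
    S.ctl k0 k1 R q ≤ S.ctl k0 k2 R q :=
  Finset.sum_le_sum_of_subset_of_nonneg (Finset.Ico_subset_Ico_right h)
    fun k _ _ => Finset.sum_nonneg fun j _ => S.cw_nonneg _ _ _ _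

theorem Wp_nonneg (k0 : ℕ) (R : Set ℕ) (p : ℕ) : 0 ≤ S.Wp k0 R p := by
  have h1 := S.bR_nonneg R p
  have h2 := S.ordw_nonneg k0 p
  have h3 := S.ctl_nonneg k0 (top p) R p
  unfold Wp
  positivity

theorem Wl_nonneg (k0 : ℕ) (R : Set ℕ) (k p : ℕ) : 0 ≤ S.Wl k0 R k p := by
  have h1 := S.bR_nonneg R p
  have h2 := S.ordw_nonneg k0 p
  have h3 := S.ctl_nonneg k0 (min (top p) ⌈S.kap * k⌉₊) R p
  unfold Wl
  positivity

theorem Wl_le_Wp (k0 : ℕ) (R : Set ℕ) (k p : ℕ) : S.Wl k0 R k p ≤ S.Wp k0 R p := by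
  have h3 := S.ctl_mono (k0 := k0) (min_le_left (top p) ⌈S.kap * k⌉₊) R p
  unfold Wl Wp
  linarith

theorem W_nonneg (k0 : ℕ) (R : Set ℕ) (n : ℕ) : 0 ≤ S.W k0 R n :=
  CM_nonneg fun p _ _ => S.Wp_nonneg k0 R p

theorem W_mul (k0 : ℕ) (R : Set ℕ) {m n : ℕ} (hm : m ≠ 0) (hn : n ≠ 0) :
    S.W k0 R (m * n) = S.W k0 R m * S.W k0 R n := CM_mul _ hm hn

theorem W_one (k0 : ℕ) (R : Set ℕ) : S.W k0 R 1 = 1 := CM_one _

theorem Fh_nonneg (k0 : ℕ) (R : Set ℕ) (p : ℕ) : 0 ≤ S.Fh k0 R p := by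
  unfold Fh
  split_ifs
  · exact le_rfl
  · exact add_nonneg (S.bR_nonneg _ _) (S.gam_nonneg _)

theorem wd_nonneg (k m : ℕ) : 0 ≤ S.wd k m := by
  unfold wd
  positivity

theorem Fe_nonneg (D : Finset ℕ) (n : ℕ) : 0 ≤ S.Fe D n := by
  unfold Fe
  refine Finset.prod_nonneg fun p _ => ?_
  split_ifs
  · exact pow_nonneg (add_nonneg (S.base_nonneg _) (S.gam_nonneg _)) _
  · exact pow_nonneg (S.gam_nonneg _) _

theorem pc_nonneg (A D : Finset ℕ) : 0 ≤ S.pc A D := Finset.prod_nonneg fun p _ => S.pr_nonneg p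

/-- expansion of the crude majorant -/
theorem CM_Fh_le (k0 : ℕ) (R : Set ℕ) {n : ℕ} (hn : rough k0 n) :
    CM (S.Fh k0 R) n ≤ ∑ D ∈ n.primeFactors.powerset.filter (fun D => ∀ p ∈ D, p ∈ R), S.Fe D n := by
  set D0 : Finset ℕ := n.primeFactors.filter (fun p => p ∈ R) with hD0
  have h1 : CM (S.Fh k0 R) n ≤ S.Fe D0 n := by
    rw [CM_eq_prod]
    unfold Fe
    refine Finset.prod_le_prod (fun p _ => pow_nonneg (S.Fh_nonneg _ _ _) _) fun p hp => ?_
    have hp' := Nat.mem_primeFactors.mp hp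
    have h2 : ¬ ((p : ℝ) < (2 : ℝ) ^ ((k0 : ℝ) / 5)) := not_lt.mpr (hn p hp'.1 hp'.2.1)
    have h3 : S.Fh k0 R p = S.bR R p + S.gam p := by
      unfold Fh
      rw [if_neg h2]
    rw [h3]
    by_cases hR : p ∈ R
    · rw [if_pos (by rw [hD0, Finset.mem_filter]; exact ⟨hp, hR⟩)]
      unfold bR
      rw [if_pos hR]
    · rw [if_neg (by rw [hD0, Finset.mem_filter]; exact fun h => hR h.2)]
      unfold bR
      rw [if_neg hR, zero_add]
  refine h1.trans ?_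
  refine Finset.single_le_sum (f := fun D => S.Fe D n) (fun D _ => S.Fe_nonneg D n) ?_
  rw [Finset.mem_filter, Finset.mem_powerset]
  exact ⟨Finset.filter_subset _ _, fun p hp => (Finset.mem_filter.mp hp).2⟩

theorem CM_Fh_eq_zero (k0 : ℕ) (R : Set ℕ) {n : ℕ} (hn0 : n ≠ 0) (hn : ¬ rough k0 n) :
    CM (S.Fh k0 R) n = 0 := by
  unfold rough at hn
  push Not at hn
  obtain ⟨p, hp, hpn, hlt⟩ := hn
  refine CM_eq_zero hn0 hp hpn ?_
  unfold Fh
  rw [if_pos hlt]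

/-- number of prime factors of rough numbers -/
theorem rough_omega {k0 n : ℕ} (hn0 : n ≠ 0) (hn : rough k0 n) :
    (2 : ℝ) ^ ((k0 : ℝ) / 5 * n.primeFactorsList.length) ≤ n := by
  induction n using Nat.recOnMul with
  | zero => exact absurd rfl hn0
  | one => simp
  | prime p hp =>
    rw [Nat.primeFactorsList_prime hp]
    simpa using hn p hp dvd_rfl
  | mul m k hm hk =>
    have hm0 : m ≠ 0 := left_ne_zero_of_mul hn0
    have hk0 : k ≠ 0 := right_ne_zero_of_mul hn0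
    have h1 := hm hm0 fun p hp hpm => hn p hp (hpm.mul_right _)
    have h2 := hk hk0 fun p hp hpm => hn p hp (hpm.mul_left _)
    rw [(Nat.perm_primeFactorsList_mul hm0 hk0).length_eq, List.length_append, Nat.cast_add,
      mul_add, Real.rpow_add (by norm_num), Nat.cast_mul]
    exact mul_le_mul h1 h2 (by positivity) (Nat.cast_nonneg _)

theorem rough_omega_le {k0 k n : ℕ} (hk0 : 1 ≤ k0) (hn0 : n ≠ 0) (hn : rough k0 n)
    (hnk : n < 2 ^ (k + 1)) : (n.primeFactorsList.length : ℝ) ≤ 5 * (k + 1) / k0 := by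
  have h1 := rough_omega hn0 hn
  have h2 : (n : ℝ) ≤ (2 : ℝ) ^ ((k + 1 : ℕ) : ℝ) := by
    rw [Real.rpow_natCast]
    exact_mod_cast hnk.le
  have h3 := (Real.rpow_le_rpow_left_iff (by norm_num : (1 : ℝ) < 2)).mp (h1.trans h2)
  have h4 : (0 : ℝ) < k0 := by exact_mod_cast hk0
  push_cast at h3
  rw [le_div_iff₀ h4]
  linarith

end Sys

end Pool.Agent.Helper16.KS
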