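import Mathlib

/-!
# Project KS (MP_768c9c_nt, S17468), construction D5: definitions

Blocks `[2^k, 2^(k+1))`, cells of length `2^(e k)`, `e k = ⌊k (1/2 - d)⌋`.  A control system `Sys`:
good cells contain many primes; every bad cell `(k, j)` of class `i` (at most `2^(u i k)` of them) has
many candidates `(q, m)`: `q` prime, `q m` squarefree, `q m` in the cell, all prime factors `p`
satisfy `2^((u i + c) k) ≤ p^(1/2 - δ)`, and `m^(1/2 + δ) ≤ 2^((1/2 - u i - c) k)`.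

`R` is a (random) set of primes.  The function at primes is
`f_t(p) = 1_R(p) p^(-1/2-δ) + ∑_i t_i w_i(p)`, `i` running over all cells (and the initial block);
all the `w_i` are nonnegative: a good cell uses its own primes, a bad cell the control primes `q` of
its candidates `(q, m)` with `m` composed of elements of `R`.
-/

set_option autoImplicit false
open scoped Classical

namespace Pool.Agent.Helper16.KS

/-- completely multiplicative extension of a function given at the primes -/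
noncomputable def CM (g : ℕ → ℝ) (n : ℕ) : ℝ := (n.primeFactorsList.map g).prod

/-- radical -/
def rad (n : ℕ) : ℕ := ∏ p ∈ n.primeFactors, p

/-- Numbers with a large `k / rad k` in short windows.  (Follows from helper18's lemma POW for every
`δ > 0`, from helper14's power lemma for `δ > 1/18`.) -/
def PowC (δ η : ℝ) : Prop := ∃ C : ℝ, ∀ x y : ℕ, ∀ B : ℝ, 1 ≤ x → (x : ℝ) ^ (1 / 2 - η) ≤ y →
  y ≤ x → 1 ≤ B →
  ∑ k ∈ (Finset.Ico x (x + y)).filter (fun k : ℕ => B ≤ (k : ℝ) / (rad k : ℝ)),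
    ((k : ℝ) / (rad k : ℝ)) ^ (1 / 2 - δ) ≤ C * y * B ^ (-η)

/-- cells of block `k` have length `2^(ec d k)` -/
noncomputable def ec (d : ℝ) (k : ℕ) : ℕ := ⌊(k : ℝ) * (1/2 - d)⌋₊

noncomputable def cell (d : ℝ) (k j : ℕ) : Finset ℕ :=
  Finset.Ico (2 ^ k + j * 2 ^ ec d k) (2 ^ k + (j + 1) * 2 ^ ec d k)

/-- number of cells of block `k` -/
noncomputable def nc (d : ℝ) (k : ℕ) : ℕ := 2 ^ (k - ec d k)

/-- number of primes in a cell -/
noncomputable def npr (d : ℝ) (k j : ℕ) : ℕ := ((cell d k j).filter Nat.Prime).card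

/-- A control system. -/
structure Sys where
  d : ℝ
  c : ℝ
  eta : ℝ
  del : ℝ
  c1 : ℝ
  C1 : ℝ
  K : ℕ
  u : Fin 3 → ℝ
  bad : ℕ → ℕ → Prop
  cls : ℕ → ℕ → Fin 3
  Cand : ℕ → ℕ → Finset (ℕ × ℕ)
  d_pos : 0 < d
  d_le : d ≤ c / 10 ^ 5
  c_le : c ≤ eta / 10
  eta_le : eta ≤ del
  del_le : del ≤ 3 / 50
  c1_pos : 0 < c1
  c1_le : c1 ≤ 1
  C1_ge : 1 ≤ C1
  K_pos : 1 ≤ K
  u_ge : ∀ i, 1/10 ≤ u i
  u_le : ∀ i, u i ≤ 0.22
  pow : PowC del eta
  /-- few bad cells of each class -/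
  few : ∀ k, K ≤ k → ∀ i, (((Finset.range (nc d k)).filter
    (fun j => bad k j ∧ cls k j = i)).card : ℝ) ≤ (2 : ℝ) ^ (u i * k)
  /-- good cells contain many primes -/
  good : ∀ k, K ≤ k → ∀ j < nc d k, ¬ bad k j → c1 * 2 ^ ec d k / k ≤ (npr d k j : ℝ)
  /-- candidates -/
  cand : ∀ k, K ≤ k → ∀ j < nc d k, bad k j → ∀ x ∈ Cand k j,
    x.1.Prime ∧ (2 : ℝ) ^ ((k : ℝ) / 3) ≤ x.1 ∧
    Squarefree (x.1 * x.2) ∧ 1 < x.2 ∧ x.1 * x.2 ∈ cell d k j ∧
    (∀ p : ℕ, p.Prime → p ∣ x.1 * x.2 →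
      (2 : ℝ) ^ ((u (cls k j) + c) * k) ≤ (p : ℝ) ^ (1/2 - del)) ∧
    (x.2 : ℝ) ^ (1/2 + del) ≤ (2 : ℝ) ^ ((1/2 - u (cls k j) - c) * k)
  /-- an integer comes from at most one candidate -/
  inj : ∀ k, K ≤ k → ∀ j < nc d k, bad k j → ∀ x ∈ Cand k j, ∀ y ∈ Cand k j,
    x.1 * x.2 = y.1 * y.2 → x = y
  many : ∀ k, K ≤ k → ∀ j < nc d k, bad k j → c1 * 2 ^ ec d k / k ^ 2 ≤ ((Cand k j).card : ℝ)
  /-- long windows contain the right proportion of candidates (up to a constant) -/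
  win1 : ∀ k, K ≤ k → ∀ j < nc d k, bad k j → ∀ x h : ℕ, (2 : ℝ) ^ (0.498 * (k : ℝ)) ≤ h →
    (((Cand k j).filter (fun y => x ≤ y.1 * y.2 ∧ y.1 * y.2 < x + h)).card : ℝ) ≤
      C1 * (h / 2 ^ ec d k) * (Cand k j).card
  /-- shorter windows: one logarithm may be lost -/
  win2 : ∀ k, K ≤ k → ∀ j < nc d k, bad k j → ∀ x h : ℕ, (2 : ℝ) ^ (0.38 * (k : ℝ)) ≤ h →
    (((Cand k j).filter (fun y => x ≤ y.1 * y.2 ∧ y.1 * y.2 < x + h)).card : ℝ) ≤
      C1 * k * (h / 2 ^ ec d k) * (Cand k j).card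

namespace Sys

variable (S : Sys)

/-! ### parameters -/

noncomputable def s : ℝ := S.d / 2
/-- savings are of the form `2^(-(ep/100) k)` -/
noncomputable def ep : ℝ := S.c * S.eta * S.d
noncomputable def tau : ℝ := S.ep / 10 ^ 4
/-- `P(r ∈ R) = r^(-hh)`, `hh = 1/2 - s - δ + τ` -/
noncomputable def hh : ℝ := 1/2 - S.s - S.del + S.tau
/-- control primes of cells of block `k'` are heavy for block `k` if `κ₁ k ≤ k'` -/
noncomputable def kap : ℝ := S.d / 10

/-- probability that all prime factors of the squarefree number `m` are in `R` -/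
noncomputable def pr (m : ℕ) : ℝ := (m : ℝ) ^ (-S.hh)

/-- value at (products of) elements of `R`; `pr m * base m = m^(s-1-τ)` -/
noncomputable def base (m : ℕ) : ℝ := (m : ℝ) ^ (-(1/2 + S.del))

/-- scale of the cells of block `k` -/
noncomputable def G (k : ℕ) : ℝ := 2 ^ ec S.d k * (2 : ℝ) ^ ((S.s - 1) * k) / k ^ 4

/-- index of the cell of `n` in its block -/
noncomputable def idx (n : ℕ) : ℕ := (n - 2 ^ Nat.log 2 n) / 2 ^ ec S.d (Nat.log 2 n)

/-- weight of the primes of the initial block `[2^(k0-1), 2^k0)` -/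
noncomputable def phi0 (k0 : ℕ) : ℝ := (2 : ℝ) ^ ((S.s - 1) * k0) / k0 ^ 3

/-- scale of the initial cell -/
noncomputable def G0 (k0 : ℕ) : ℝ :=
  S.phi0 k0 * (((Finset.Ico (2 ^ (k0 - 1)) (2 ^ k0)).filter Nat.Prime).card : ℝ)

/-- ordinary weight of a prime -/
noncomputable def ordw (k0 p : ℕ) : ℝ :=
  if p < 2 ^ (k0 - 1) then 0
  else if p < 2 ^ k0 then S.phi0 k0
  else if S.bad (Nat.log 2 p) (S.idx p) then 0
  else S.G (Nat.log 2 p) / npr S.d (Nat.log 2 p) (S.idx p)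

/-- the cell of a prime; everything below `2^k0` belongs to the initial cell `(0, 0)` -/
noncomputable def cix (k0 n : ℕ) : ℕ × ℕ := if n < 2 ^ k0 then (0, 0) else (Nat.log 2 n, S.idx n)

end Sys

/-! ### control weights (depending on the set `R`) -/

/-- all prime factors of `m` are in `R` -/
def inR (R : Set ℕ) (m : ℕ) : Prop := ∀ p : ℕ, p.Prime → p ∣ m → p ∈ R

/-- a control prime `q` of block `k` satisfies `k < top q` -/
def top (q : ℕ) : ℕ := 3 * (Nat.log 2 q + 1)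

namespace Sys

variable (S : Sys)

/-- bad cells of block `k` -/
noncomputable def badc (k : ℕ) : Finset ℕ := (Finset.range (nc S.d k)).filter (fun j => S.bad k j)

/-- active candidates of a cell -/
noncomputable def act (R : Set ℕ) (k j : ℕ) : Finset (ℕ × ℕ) :=
  (S.Cand k j).filter (fun x => inR R x.2)

/-- normalised number of active candidates of a cell; its expectation is `(S.Cand k j).card` -/
noncomputable def NN (R : Set ℕ) (k j : ℕ) : ℝ := ∑ x ∈ S.act R k j, 1 / S.pr x.2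

/-- weight of an active candidate `(q, m)` -/
noncomputable def wo (R : Set ℕ) (k j m : ℕ) : ℝ := S.G k / (S.NN R k j * S.pr m * S.base m)

/-- deterministic majorant (up to the factor `(2/c1) k^(-2)`) of `wo`:
`2^((s-1)k) / (pr m * base m) = 2^((s-1)k) m^(1-s+τ)` -/
noncomputable def wd (k m : ℕ) : ℝ := (2 : ℝ) ^ ((S.s - 1) * k) * (m : ℝ) ^ (1 - S.s + S.tau)

/-- control weight of the prime `q` coming from the bad cell `(k, j)` -/
noncomputable def cw (R : Set ℕ) (k j q : ℕ) : ℝ :=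
  ∑ x ∈ (S.act R k j).filter (fun x => x.1 = q), S.wo R k j x.2

/-- control weight of the prime `q` coming from the blocks `k0 ≤ k < k1` -/
noncomputable def ctl (k0 k1 : ℕ) (R : Set ℕ) (q : ℕ) : ℝ :=
  ∑ k ∈ Finset.Ico k0 k1, ∑ j ∈ S.badc k, S.cw R k j q

/-- contribution of `R` at the prime `p` -/
noncomputable def bR (R : Set ℕ) (p : ℕ) : ℝ := if p ∈ R then S.base p else 0

/-- the majorant at primes -/
noncomputable def Wp (k0 : ℕ) (R : Set ℕ) (p : ℕ) : ℝ :=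
  S.bR R p + 2 * S.ordw k0 p + 2 * S.ctl k0 (top p) R p

/-- the completely multiplicative majorant -/
noncomputable def W (k0 : ℕ) (R : Set ℕ) (n : ℕ) : ℝ := CM (S.Wp k0 R) n

/-- the function at primes, with parameters `t` -/
noncomputable def fp (k0 : ℕ) (R : Set ℕ) (t : ℕ × ℕ → ℝ) (p : ℕ) : ℝ :=
  S.bR R p + t (S.cix k0 p) * S.ordw k0 p +
    ∑ k ∈ Finset.Ico k0 (top p), ∑ j ∈ S.badc k, t (k, j) * S.cw R k j p

/-- the completely multiplicative function -/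
noncomputable def ft (k0 : ℕ) (R : Set ℕ) (t : ℕ × ℕ → ℝ) (n : ℕ) : ℝ := CM (S.fp k0 R t) n

/-- the main inequality: the majorant is at most `9/4` times the own part in every cell -/
def Star (k0 : ℕ) (R : Set ℕ) : Prop :=
  ∑ n ∈ Finset.Ico 1 (2 ^ k0), S.W k0 R n ≤ (2 + 1/4) * S.G0 k0 ∧
  ∀ k, k0 ≤ k → ∀ j < nc S.d k, ∑ n ∈ cell S.d k j, S.W k0 R n ≤ (2 + 1/4) * S.G k

/-! ### crude majorants -/

/-- `p^(s-1+6τ)`: majorant of the ordinary and control weights -/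
noncomputable def gam (p : ℕ) : ℝ := (p : ℝ) ^ (S.s - 1 + 6 * S.tau)

/-- crude majorant at primes: every prime `≥ 2^(k0/5)` is a control prime of maximal size -/
noncomputable def Fh (k0 : ℕ) (R : Set ℕ) (p : ℕ) : ℝ :=
  if (p : ℝ) < (2 : ℝ) ^ ((k0 : ℝ) / 5) then 0 else S.bR R p + S.gam p

/-- majorant at primes with the heavy control part (blocks `≥ κ₁ k`) removed -/
noncomputable def Wl (k0 : ℕ) (R : Set ℕ) (k p : ℕ) : ℝ :=
  S.bR R p + 2 * S.ordw k0 p + 2 * S.ctl k0 (min (top p) ⌈S.kap * k⌉₊) R p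

/-- heavy blocks for block `k` (those which can have control primes dividing elements of it) -/
noncomputable def hvy (k0 k : ℕ) : Finset ℕ := Finset.Ico (max k0 ⌈S.kap * k⌉₊) (3 * (k + 1))

/-- the expanded heavy part of a cell: sum over `n` in the cell, heavy active candidates `x = (q, m)`
with `q ∣ n` satisfying `Q (k', j') n x`, `(k', j')` the cell of the candidate `x` -/
noncomputable def HT (k0 : ℕ) (R : Set ℕ) (k j : ℕ) (Q : ℕ × ℕ → ℕ → ℕ × ℕ → Prop) : ℝ :=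
  ∑ n ∈ cell S.d k j, ∑ k' ∈ S.hvy k0 k, ∑ j' ∈ S.badc k',
    ∑ x ∈ (S.act R k' j').filter (fun x => x.1 ∣ n ∧ Q (k', j') n x),
      (n.factorization x.1 : ℝ) * (2 * S.wo R k' j' x.2 * S.W k0 R (n / x.1))

/-- the same with deterministic weights and the crude majorant -/
noncomputable def HP (k0 : ℕ) (R : Set ℕ) (k j : ℕ) (Q : ℕ × ℕ → ℕ → ℕ × ℕ → Prop) : ℝ :=
  ∑ n ∈ cell S.d k j, ∑ k' ∈ S.hvy k0 k, ∑ j' ∈ S.badc k',
    ∑ x ∈ (S.act R k' j').filter (fun x => x.1 ∣ n ∧ Q (k', j') n x),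
      S.wd k' x.2 * CM (S.Fh k0 R) (n / x.1)

/-- non-direct terms -/
def Q1 (_ : ℕ × ℕ) (n : ℕ) (x : ℕ × ℕ) : Prop := ¬ x.2 ∣ n / x.1

/-- direct terms with a large cofactor -/
def Q2 (i : ℕ × ℕ) (n : ℕ) (x : ℕ × ℕ) : Prop :=
  x.2 ∣ n / x.1 ∧ (2 : ℝ) ^ ((S.u (S.cls i.1 i.2) + S.c) * i.1) ≤ ((n / x.1 / x.2 : ℕ) : ℝ)

/-- direct terms with a small cofactor -/
def Q3 (i : ℕ × ℕ) (n : ℕ) (x : ℕ × ℕ) : Prop :=
  x.2 ∣ n / x.1 ∧ 1 < n / x.1 / x.2 ∧
    ((n / x.1 / x.2 : ℕ) : ℝ) < (2 : ℝ) ^ ((S.u (S.cls i.1 i.2) + S.c) * i.1)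

/-- own terms -/
def Q4 (_ : ℕ × ℕ) (n : ℕ) (x : ℕ × ℕ) : Prop := n = x.1 * x.2

/-! ### conditional expectations of the crude majorants -/

/-- all the prime factors of `n` are at least `2^(k0/5)` -/
def rough (k0 n : ℕ) : Prop := ∀ p : ℕ, p.Prime → p ∣ n → (2 : ℝ) ^ ((k0 : ℝ) / 5) ≤ p

/-- `CM (Fh k0 R) n ≤ ∑_{D ⊆ primeFactors n, D ⊆ R} Fe D n` for rough `n` -/
noncomputable def Fe (D : Finset ℕ) (n : ℕ) : ℝ :=
  ∏ p ∈ n.primeFactors,
    if p ∈ D then (S.base p + S.gam p) ^ n.factorization p else S.gam p ^ n.factorization p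

/-- `P(D ⊆ R | A ⊆ R)` -/
noncomputable def pc (A D : Finset ℕ) : ℝ := ∏ p ∈ D \ A, S.pr p

/-- conditional expectation of `HP`, given `A ⊆ R` (only the terms whose support contains `A`) -/
noncomputable def LP (k0 k j : ℕ) (Q : ℕ × ℕ → ℕ → ℕ × ℕ → Prop) (A : Finset ℕ) : ℝ :=
  ∑ n ∈ (cell S.d k j).filter (rough k0), ∑ k' ∈ S.hvy k0 k, ∑ j' ∈ S.badc k',
    ∑ x ∈ (S.Cand k' j').filter (fun x => x.1 ∣ n ∧ Q (k', j') n x),
      ∑ D ∈ (n / x.1).primeFactors.powerset.filter (fun D => A ⊆ x.2.primeFactors ∪ D),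
        S.wd k' x.2 * S.Fe D (n / x.1) * S.pc A (x.2.primeFactors ∪ D)

/-- conditional expectation of the crude mass of a window -/
noncomputable def CP (k0 x h : ℕ) (A : Finset ℕ) : ℝ :=
  ∑ n ∈ (Finset.Ico x (x + h)).filter (rough k0),
    ∑ D ∈ n.primeFactors.powerset.filter (fun D => A ⊆ D), S.Fe D n * S.pc A D

end Sys

end Pool.Agent.Helper16.KS
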