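import Pool.Agent.Helper16.KS.Basic

/-!
# Project KS: assembly of the main chain
-/

set_option autoImplicit false
open scoped Classical
open Filter Topology

namespace Pool.Agent.Helper16.KS

/-- the negation of the Kahane–Saïas question (the frozen statement S17468) -/
def Target : Prop :=
    ¬ (∀ f : ℕ → ℂ,
      f 1 = 1 →
      (∀ m n : ℕ, 0 < m → 0 < n → f (m * n) = f m * f n) →
      Tendsto (fun N : ℕ => ∑ n ∈ Finset.range N, f (n + 1)) atTop (𝓝 0) →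
      ∃ c : ℝ, 0 < c ∧ ∀ M : ℕ, ∃ N : ℕ, M ≤ N ∧ 0 < N ∧
        c / Real.sqrt (N : ℝ) ≤ ‖∑ n ∈ Finset.Icc 1 N, f n‖)

theorem star_assembly (hL : Light) (hE : Expand) (h12 : H12) (h3 : H3) (h4 : H4) (hI : Init) :
    GoodStar := by
  intro S
  obtain ⟨K1, h1⟩ := hL S
  obtain ⟨K2, h2⟩ := hE S
  obtain ⟨K3, h3'⟩ := h12 S
  obtain ⟨K4, h4'⟩ := h3 S
  obtain ⟨K5, h5⟩ := h4 S
  obtain ⟨K6, h6⟩ := hI S
  refine ⟨max (max (max K1 K2) (max K3 K4)) (max (max K5 K6) 1), fun k0 hk0 R hR => ?_⟩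
  simp only [max_le_iff] at hk0
  obtain ⟨⟨⟨a1, a2⟩, a3, a4⟩, ⟨a5, a6⟩, a7⟩ := hk0
  refine ⟨h6 k0 a6 R hR, fun k hk j hj => ?_⟩
  have b1 := h1 k0 a1 R hR k hk j hj
  have b2 := h2 k0 a2 R hR k hk j hj
  have b3 := h3' k0 a3 R hR k hk j hj
  have b4 := h4' k0 a4 R hR k hk j hj
  have b5 := h5 k0 a5 R hR k hk j hj
  have hG := S.G_nonneg k
  by_cases hb : S.bad k j
  · rw [if_pos hb] at b1 b5
    linarith
  · rw [if_neg hb] at b1 b5
    linarith

theorem good_NN_pos (S : Sys) {k0 : ℕ} (hk0 : S.K ≤ k0) {R : Set ℕ} (hR : S.Good k0 R) :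
    ∀ k, k0 ≤ k → ∀ j ∈ S.badc k, 0 < S.NN R k j := by
  intro k hk j hj
  have h1 := hR.lower k hk j hj
  rw [S.mem_badc] at hj
  have h2 := S.many k (hk0.trans hk) j hj.1 hj.2
  have hk1 : 0 < k := lt_of_lt_of_le S.K_pos (hk0.trans hk)
  have h3 : 0 < S.c1 * 2 ^ ec S.d k / (k : ℝ) ^ 2 := by
    have h4 : (0 : ℝ) < k := by exact_mod_cast hk1
    have := S.c1_pos
    positivity
  linarith

theorem exists_f (hS : ExistsSys) (hG : ExistsGood) (hstar : GoodStar) (hF : FP) (hL : Last) :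
    ∃ (a : ℕ → ℝ) (g : ℕ → ℝ) (C e : ℝ), 0 < e ∧ (∀ n, a n = CM g n) ∧
      ∀ N : ℕ, 1 ≤ N → |∑ n ∈ Finset.Icc 1 N, a n| ≤ C * (N : ℝ) ^ (-(1/2 + e)) := by
  obtain ⟨S⟩ := hS
  obtain ⟨K1, h1⟩ := hG S
  obtain ⟨K2, h2⟩ := hstar S
  set k0 := max (max K1 K2) (max S.K 3) with hk0
  have a1 : K1 ≤ k0 := (le_max_left _ _).trans (le_max_left _ _)
  have a2 : K2 ≤ k0 := (le_max_right _ _).trans (le_max_left _ _)
  have a3 : S.K ≤ k0 := (le_max_left _ _).trans (le_max_right _ _)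
  have a4 : 3 ≤ k0 := (le_max_right _ _).trans (le_max_right _ _)
  obtain ⟨R, hR⟩ := h1 k0 a1
  have hst := h2 k0 a2 R hR
  have hNN := good_NN_pos S a3 hR
  have hp : ∀ r ∈ R, r.Prime := fun r hr => (hR.prime r hr).1
  obtain ⟨t, ht1, ht2, ht3⟩ := hF S k0 a4 a3 R hp hNN hst
  obtain ⟨C, hC⟩ := hL S k0 a4 R hp hNN hst t ht1 ht2 ht3
  exact ⟨S.ft k0 R t, S.fp k0 R t, C, S.d / 2, half_pos S.d_pos, fun n => rfl, hC⟩

theorem target (hS : ExistsSys) (hG : ExistsGood) (hstar : GoodStar) (hF : FP) (hL : Last) :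
    Target := by
  obtain ⟨a, g, C, e, he, ha, hC⟩ := exists_f hS hG hstar hF hL
  intro hall
  have hC0 : 0 ≤ C := by
    have := (abs_nonneg _).trans (hC 1 le_rfl)
    simpa using this
  have hcast : ∀ N : ℕ, ‖∑ n ∈ Finset.Icc 1 N, ((a n : ℝ) : ℂ)‖ = |∑ n ∈ Finset.Icc 1 N, a n| := by
    intro N
    rw [← Complex.ofReal_sum, Complex.norm_real, Real.norm_eq_abs]
  have hlim : Tendsto (fun N : ℕ => C * (N : ℝ) ^ (-(1/2 + e))) atTop (𝓝 0) := by
    have h1 := (tendsto_rpow_neg_atTop (by linarith : (0 : ℝ) < 1/2 + e)).comp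
      (tendsto_natCast_atTop_atTop (R := ℝ))
    simpa using h1.const_mul C
  obtain ⟨c, hc, hc2⟩ := hall (fun n => ((a n : ℝ) : ℂ)) (by simp [ha, CM_one])
    (fun m n hm hn => by rw [ha, ha, ha, CM_mul g hm.ne' hn.ne']; push_cast; ring)
    (by
      rw [tendsto_zero_iff_norm_tendsto_zero]
      refine squeeze_zero' (Eventually.of_forall fun N => norm_nonneg _)
        (eventually_atTop.mpr ⟨1, fun N hN => ?_⟩) hlim
      have h1 : ∑ n ∈ Finset.range N, ((a (n + 1) : ℝ) : ℂ) = ∑ n ∈ Finset.Icc 1 N, ((a n : ℝ) : ℂ) := by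
        rw [Finset.range_eq_Ico, Finset.sum_Ico_add' (fun n => ((a n : ℝ) : ℂ)) 0 N 1]
        refine Finset.sum_congr ?_ fun _ _ => rfl
        ext x
        simp only [Finset.mem_Ico, Finset.mem_Icc]
        omega
      rw [h1, hcast]
      exact hC N hN)
  -- contradiction: `c ≤ C N^(-e)` for arbitrarily large `N`
  have hlim2 : Tendsto (fun N : ℕ => C * (N : ℝ) ^ (-e)) atTop (𝓝 0) := by
    have h1 := (tendsto_rpow_neg_atTop he).comp (tendsto_natCast_atTop_atTop (R := ℝ))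
    simpa using h1.const_mul C
  obtain ⟨M, hM⟩ := eventually_atTop.mp (hlim2.eventually (gt_mem_nhds hc))
  obtain ⟨N, hMN, hN0, hN⟩ := hc2 (max M 1)
  have hMN' : M ≤ N := (le_max_left _ _).trans hMN
  have h1 := hM N hMN'
  have hNr : (0 : ℝ) < N := by exact_mod_cast hN0
  rw [hcast] at hN
  have h2 := hN.trans (hC N hN0)
  rw [div_le_iff₀ (Real.sqrt_pos.mpr hNr), Real.sqrt_eq_rpow, mul_assoc, ← Real.rpow_add hNr] at h2
  have h3 : -(1/2 + e) + 1/2 = -e := by ring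
  rw [h3] at h2
  linarith

end Pool.Agent.Helper16.KS
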