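import Pool.Agent.Helper16.KS.Final
import Pool.Agent.Helper16.KS.Last
import Pool.Agent.Helper60.KX.Expand
import Pool.Agent.Helper60.KX.H12
import Pool.Agent.Helper60.KX.H4
import Pool.Agent.Helper60.KX.Sys
import Pool.Agent.Helper48.KS.PowC
import Pool.Agent.Helper15.KS.H3
import Pool.Agent.Helper15.KS.OrdWin
import Pool.Agent.Helper72.KS.Init
import Pool.Agent.Helper61.KS.Pt
import Pool.Agent.Helper29.KS.Mass
import Pool.Agent.Helper33.KS.LFinal
import Pool.Agent.Helper14.KS.Crude
import Pool.Agent.Helper88.KS.Cand1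
import Pool.Agent.Helper88.KS.Mult1
import Pool.Agent.Helper88.KS.Load1
import Pool.Agent.Helper18.KL.Red
import Pool.Agent.Helper18.KL.LL
import Pool.Agent.Helper35.KL.KFinal
import Pool.Agent.Helper35.KL.JF
import Pool.Agent.Helper62.KS.EGFinal
import Pool.Agent.Helper79.KS.FP

/-!
# Project KS: the main theorem from the load estimates KF and JF
-/

set_option autoImplicit false

namespace Pool.Agent.Helper16.KS

theorem goodStar : GoodStar :=
  star_assembly
    (Pool.Agent.Helper33.KS.light (Pool.Agent.Helper15.KS.ordWin Pool.Agent.Helper61.KS.ordLe)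
      Pool.Agent.Helper29.KS.rank Pool.Agent.Helper61.KS.wpLe Pool.Agent.Helper61.KS.ordLe)
    Pool.Agent.Helper60.KX.expand
    (Pool.Agent.Helper60.KX.h12 Pool.Agent.Helper61.KS.woLe Pool.Agent.Helper61.KS.wpLe)
    (Pool.Agent.Helper15.KS.h3 Pool.Agent.Helper61.KS.wpLe Pool.Agent.Helper29.KS.sumW)
    (Pool.Agent.Helper60.KX.h4 Pool.Agent.Helper61.KS.ordLe Pool.Agent.Helper61.KS.ctlLe)
    (Pool.Agent.Helper72.KS.init Pool.Agent.Helper61.KS.woLe)

theorem existsSys : ExistsSys := Pool.Agent.Helper60.KX.existsSys Pool.Agent.Helper48.KS.powC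

theorem existsGood (hKF : Pool.Agent.Helper18.KL.KF) (hJF : Pool.Agent.Helper18.KL.JF) :
    ExistsGood :=
  Pool.Agent.Helper62.KS.existsGood_of Pool.Agent.Helper88.KS.cand1 Pool.Agent.Helper88.KS.mult1
    Pool.Agent.Helper29.KS.massC1 Pool.Agent.Helper29.KS.massR1 Pool.Agent.Helper14.KS.crude1
    Pool.Agent.Helper14.KS.rpart1
    (Pool.Agent.Helper88.KS.load1_of Pool.Agent.Helper18.KL.red hKF hJF)
    (Pool.Agent.Helper88.KS.load2_of Pool.Agent.Helper18.KL.red hJF Pool.Agent.Helper18.KL.ll)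

theorem target_of_KF_JF (hKF : Pool.Agent.Helper18.KL.KF) (hJF : Pool.Agent.Helper18.KL.JF) :
    Target :=
  target existsSys (existsGood hKF hJF) goodStar Pool.Agent.Helper79.KS.FPM.fp last

/-- the negation of the question of Kahane and Saias -/
theorem target_final : Target :=
  target_of_KF_JF Pool.Agent.Helper35.KL.kF Pool.Agent.Helper35.KL.jF

end Pool.Agent.Helper16.KS
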