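import Pool.Agent.Helper16.KS.Basic
import Pool.Agent.Helper62.KS.Prob

/-!
# Project KS: `ExistsGood` split into events

`pr (S.PP k0) E` is the (outer) probability that the random set `R` is in `E`; every prime
`p ≥ 2^(k0/5)` is in `R` with probability `S.pr p`, independently.  Each of the Props below bounds the
probability of the failure of one field of `Sys.Good` at level `k`; `ExistsGood` follows from them by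
`Helper62.KS.exists_levels_geom` (reindexing the levels of `crude`, `rpart`, `mult`, `massR`).
-/

set_option autoImplicit false
open scoped Classical

namespace Pool.Agent.Helper16.KS

open Pool.Agent.Helper62.KS

namespace Sys

variable (S : Sys)

/-- the probabilities -/
noncomputable def PP (k0 p : ℕ) : ℝ :=
  if p.Prime ∧ (2 : ℝ) ^ ((k0 : ℝ) / 5) ≤ p then S.pr p else 0

theorem PP_mem (k0 p : ℕ) : 0 ≤ S.PP k0 p ∧ S.PP k0 p ≤ 1 := by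
  unfold PP
  split_ifs with h
  · exact ⟨S.pr_nonneg p, S.pr_le_one h.1.ne_zero⟩
  · exact ⟨le_rfl, zero_le_one⟩

theorem PP_le (k0 p : ℕ) : S.PP k0 p ≤ S.pr p := by
  unfold PP
  split_ifs with h
  · exact le_rfl
  · exact S.pr_nonneg p

end Sys

/-- lower bound for the active candidates (from Cand1, helper62's pr_lower) -/
def EvLow : Prop := ∀ S : Sys, ∃ e : ℝ, 0 < e ∧ ∃ K0 : ℕ, ∀ k0, K0 ≤ k0 → ∀ k, k0 ≤ k →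
  pr (S.PP k0) {R | ∃ j ∈ S.badc k, S.NN R k j < ((S.Cand k j).card : ℝ) / 2} ≤
    (2 : ℝ) ^ (-(e * k))

/-- windows (from Cand1 and Sys.win1, helper33's upper_tail) -/
def EvWin1 : Prop := ∀ S : Sys, ∃ e : ℝ, 0 < e ∧ ∃ K0 : ℕ, ∀ k0, K0 ≤ k0 → ∀ k, k0 ≤ k →
  pr (S.PP k0) {R | ∃ j ∈ S.badc k, ∃ x h : ℕ, (2 : ℝ) ^ (0.498 * (k : ℝ)) ≤ h ∧
    h ≤ 2 ^ ec S.d k ∧
    2 * (S.C1 * (h / 2 ^ ec S.d k) * (S.Cand k j).card) <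
      ∑ y ∈ (S.act R k j).filter (fun y => x ≤ y.1 * y.2 ∧ y.1 * y.2 < x + h), 1 / S.pr y.2} ≤
    (2 : ℝ) ^ (-(e * k))

def EvWin2 : Prop := ∀ S : Sys, ∃ e : ℝ, 0 < e ∧ ∃ K0 : ℕ, ∀ k0, K0 ≤ k0 → ∀ k, k0 ≤ k →
  pr (S.PP k0) {R | ∃ j ∈ S.badc k, ∃ x h : ℕ, (2 : ℝ) ^ (0.38 * (k : ℝ)) ≤ h ∧
    h ≤ 2 ^ ec S.d k ∧
    2 * (S.C1 * k * (h / 2 ^ ec S.d k) * (S.Cand k j).card) <
      ∑ y ∈ (S.act R k j).filter (fun y => x ≤ y.1 * y.2 ∧ y.1 * y.2 < x + h), 1 / S.pr y.2} ≤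
    (2 : ℝ) ^ (-(e * k))

/-- number of owners of the primes `q ∈ [2^l, 2^(l+1))`, `l ≥ k0/3` (from Mult1, pr_mult) -/
def EvMult : Prop := ∀ S : Sys, ∃ e : ℝ, 0 < e ∧ ∃ K0 : ℕ, ∀ k0, K0 ≤ k0 → ∀ l : ℕ,
  (k0 : ℝ) / 4 ≤ l →
  pr (S.PP k0) {R | ∃ q : ℕ, Nat.log 2 q = l ∧ (q : ℝ) ^ S.tau < (S.own k0 R q : ℝ)} ≤
    (2 : ℝ) ^ (-(e * l))

/-- mass of `R` in `[2^(l/5), 2^((l+1)/5))`, `l ≥ k0` (from MassR1, Markov) -/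
def EvMassR : Prop := ∀ S : Sys, ∃ e : ℝ, 0 < e ∧ ∃ K0 : ℕ, ∀ k0, K0 ≤ k0 → ∀ l : ℕ, k0 ≤ l →
  pr (S.PP k0) {R | ∃ T : Finset ℕ, (∀ r ∈ T, r ∈ R ∧ (2 : ℝ) ^ ((l : ℝ) / 5) ≤ r ∧
    (r : ℝ) < (2 : ℝ) ^ (((l : ℝ) + 1) / 5)) ∧
    (2 : ℝ) ^ (-(S.tau / 8) * (l : ℝ)) <
      ∑ r ∈ T, S.base r * (r : ℝ) ^ (-S.s) * (1 + Real.log r) ^ 2} ≤ (2 : ℝ) ^ (-(e * l))

/-- mass of the control primes (from MassC1, Markov) -/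
def EvMassC : Prop := ∀ S : Sys, ∃ e : ℝ, 0 < e ∧ ∃ K0 : ℕ, ∀ k0, K0 ≤ k0 → ∀ k, k0 ≤ k →
  pr (S.PP k0) {R | (2 : ℝ) ^ (-(S.c / 4) * (k : ℝ)) <
    ∑ j ∈ S.badc k, ∑ x ∈ S.act R k j, S.wd k x.2 * (x.1 : ℝ) ^ (-S.s)} ≤ (2 : ℝ) ^ (-(e * k))

/-- crude majorant (from Crude1, pr_upper with constant order) -/
def EvCrude : Prop := ∀ S : Sys, ∃ e : ℝ, 0 < e ∧ ∃ K0 : ℕ, ∀ k0, K0 ≤ k0 → ∀ k : ℕ,
  (k0 : ℝ) / 2 ≤ k →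
  pr (S.PP k0) {R | ∃ x h : ℕ, 2 ^ k ≤ x ∧ x < 2 ^ (k + 1) ∧
    (2 : ℝ) ^ ((1/2 - 3 * S.d) * k) ≤ h ∧ h ≤ x ∧
    h * (2 : ℝ) ^ ((S.s - 1 + 7 * S.tau) * k) < ∑ n ∈ Finset.Ico x (x + h), CM (S.Fh k0 R) n} ≤
    (2 : ℝ) ^ (-(e * k))

/-- numbers with a large divisor composed of elements of `R` (from RPart1, pr_upper) -/
def EvRPart : Prop := ∀ S : Sys, ∃ e : ℝ, 0 < e ∧ ∃ K0 : ℕ, ∀ k0, K0 ≤ k0 → ∀ k : ℕ,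
  (k0 : ℝ) / 2 ≤ k →
  pr (S.PP k0) {R | ∃ x h : ℕ, 2 ^ k ≤ x ∧ x < 2 ^ (k + 1) ∧
    (2 : ℝ) ^ ((1/2 - 3 * S.d) * k) ≤ h ∧ h ≤ x ∧
    h * (2 : ℝ) ^ ((S.s - 1 - S.tau / 20) * k) <
      ∑ n ∈ (Finset.Ico x (x + h)).filter (Sys.rough k0),
        ∑ e ∈ n.divisors.filter (fun e : ℕ => (2 : ℝ) ^ ((k : ℝ) / 8) ≤ (e : ℝ) ∧ inR R e),
          S.base e * ((n / e : ℕ) : ℝ) ^ (S.s - 1)} ≤
    (2 : ℝ) ^ (-(e * k))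

/-- heavy loads (from Load1, pr_upper with constant order) -/
def EvHeavy1 : Prop := ∀ S : Sys, ∃ e : ℝ, 0 < e ∧ ∃ K0 : ℕ, ∀ k0, K0 ≤ k0 → ∀ k, k0 ≤ k →
  pr (S.PP k0) {R | ∃ j < nc S.d k,
    (2 : ℝ) ^ (-(S.ep / 100) * k) * S.G k < S.HP k0 R k j Sys.Q1} ≤ (2 : ℝ) ^ (-(e * k))

/-- heavy loads (from Load2, pr_upper with constant order) -/
def EvHeavy2 : Prop := ∀ S : Sys, ∃ e : ℝ, 0 < e ∧ ∃ K0 : ℕ, ∀ k0, K0 ≤ k0 → ∀ k, k0 ≤ k →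
  pr (S.PP k0) {R | ∃ j < nc S.d k,
    (2 : ℝ) ^ (-(S.ep / 100) * k) * S.G k < S.HP k0 R k j S.Q2} ≤ (2 : ℝ) ^ (-(e * k))

end Pool.Agent.Helper16.KS
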